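import Mathlib
import Pool.Agent.Y639.CR.Meagre

/-!
# Maximal oscillation of all regular means, off Ramsey null sets and off meagre sets

The starting result `CesaroRamsey` answers the question (no): the Cesàro averages of the parities
converge, along any subsequence, only on a Ramsey null set. Here: one sequence of continuous
functions `f n` from the space of the infinite sets of natural numbers to `[0, 1]` such that for
every regular summation method (Toeplitz matrix) and every rearrangement `u` tending to infinity,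
the means of `f (u 0), f (u 1), ...` have EVERY point of `[0, 1]` as a limit point, for all `x`
outside a set which is both Ramsey null and meagre; one sequence of clopen sets such that the same
holds for the means of their indicator functions, for every strongly regular method, in particular
for the Cesàro averages along every subsequence; and the same for every ideal for which there is
a measurable dominating real.
-/

open Filter Topology

namespace Pool.Agent.Results.MP_d594f7_lc.RegularMethods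

open Pool.Agent.Results.MP_d594f7_lc.CesaroRamsey Pool.Agent.Y639.CR

theorem result :
    -- continuous functions, regular methods
    (∃ f : ℕ → InfSub → ℝ, (∀ n, Continuous (f n)) ∧ (∀ n x, f n x ∈ Set.Icc (0 : ℝ) 1) ∧
      ∀ a : ℕ → ℕ → ℝ, Regular a → ∀ u : ℕ → ℕ, Tendsto u atTop atTop →
        ∃ N : Set InfSub, RamseyNull N ∧ IsMeagre N ∧ ∀ x, x ∉ N → ∀ t ∈ Set.Icc (0 : ℝ) 1,
          MapClusterPt t atTop (fun k => ∑' j, a k j * f (u j) x)) ∧
    -- clopen sets, strongly regular methods; the averages of the question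
    (∃ C : ℕ → Set InfSub, (∀ n, IsClopen (C n)) ∧
      (∀ a : ℕ → ℕ → ℝ, StronglyRegular a →
        ∃ N : Set InfSub, RamseyNull N ∧ IsMeagre N ∧ ∀ x, x ∉ N → ∀ t ∈ Set.Icc (0 : ℝ) 1,
          MapClusterPt t atTop (fun k => ∑' j, a k j * (C j).indicator 1 x)) ∧
      ∀ v : ℕ → ℕ, StrictMono v →
        (∃ N : Set InfSub, RamseyNull N ∧ IsMeagre N ∧ ∀ x, x ∉ N → ∀ t ∈ Set.Icc (0 : ℝ) 1,
          MapClusterPt t atTop
            (fun k => (∑ j ∈ Finset.range (v k), (C j).indicator 1 x) / (v k : ℝ))) ∧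
        ¬ ∃ N : Set InfSub, RamseyNull N ∧ ∀ x, x ∉ N → ∃ L : ℝ, Tendsto
            (fun k => (∑ j ∈ Finset.range (v k), (C j).indicator 1 x) / (v k : ℝ))
            atTop (𝓝 L)) ∧
    -- all ideals with a measurable dominating real
    (∀ (X : Type) [MeasurableSpace X] (I : Set (Set X)),
      (∀ A B : Set X, A ⊆ B → B ∈ I → A ∈ I) →
      ∀ d : X → ℕ → ℕ, (∀ n, Measurable (fun x => d x n)) →
      (∀ g : ℕ → ℕ, {x | ¬ ∀ᶠ n in atTop, g n ≤ d x n} ∈ I) →
      (∃ f : ℕ → X → ℝ, (∀ n, Measurable (f n)) ∧ (∀ n x, f n x ∈ Set.Icc (0 : ℝ) 1) ∧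
        ∀ a : ℕ → ℕ → ℝ, Regular a → ∀ u : ℕ → ℕ, Tendsto u atTop atTop →
          ∃ N ∈ I, ∀ x, x ∉ N → ∀ t ∈ Set.Icc (0 : ℝ) 1,
            MapClusterPt t atTop (fun k => ∑' j, a k j * f (u j) x)) ∧
      ∃ C : ℕ → Set X, (∀ n, MeasurableSet (C n)) ∧
        (∀ a : ℕ → ℕ → ℝ, StronglyRegular a →
          ∃ N ∈ I, ∀ x, x ∉ N → ∀ t ∈ Set.Icc (0 : ℝ) 1,
            MapClusterPt t atTop (fun k => ∑' j, a k j * (C j).indicator 1 x)) ∧
        ∀ v : ℕ → ℕ, StrictMono v →
          ∃ N ∈ I, ∀ x, x ∉ N → ∀ t ∈ Set.Icc (0 : ℝ) 1, MapClusterPt t atTop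
            (fun k => (∑ j ∈ Finset.range (v k), (C j).indicator 1 x) / (v k : ℝ))) := by
  -- the exceptional set for a function `g`
  have hexc : ∀ g : ℕ → ℕ, RamseyNull
      ({x : InfSub | ¬ ∀ᶠ i in atTop, g (el i x) < el (i + 1) x} ∩
        {x : InfSub | ∃ m, ¬ ∃ᶠ i in atTop, (i + 1).unpair.1 = m ∧
          g (el i x) < el (i + 1) x}) ∧
      IsMeagre ({x : InfSub | ¬ ∀ᶠ i in atTop, g (el i x) < el (i + 1) x} ∩
        {x : InfSub | ∃ m, ¬ ∃ᶠ i in atTop, (i + 1).unpair.1 = m ∧
          g (el i x) < el (i + 1) x}) := fun g =>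
    ⟨RamseyNull.mono Set.inter_subset_left (ramseyNull_slow g),
      (meagre_slow g).mono Set.inter_subset_right⟩
  have hoff : ∀ (g : ℕ → ℕ) (x : InfSub), x ∉
      ({x : InfSub | ¬ ∀ᶠ i in atTop, g (el i x) < el (i + 1) x} ∩
        {x : InfSub | ∃ m, ¬ ∃ᶠ i in atTop, (i + 1).unpair.1 = m ∧
          g (el i x) < el (i + 1) x}) → ∀ t ∈ Set.Icc (0 : ℝ) 1, ∀ ε > 0,
      ∃ᶠ i in atTop, |rat (i + 1) - t| < ε ∧ g (el i x) < el (i + 1) x := by
    intro g x hx t ht ε hε
    apply freq_of_not_slow _ t ht ε hε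
    intro h2
    refine hx ⟨fun h1 => ?_, h2⟩
    obtain ⟨m, hm⟩ := h2
    apply hm
    obtain ⟨M, hM⟩ := h1.exists_forall_of_atTop
    rw [frequently_atTop]
    intro K
    have h3 := Nat.right_le_pair m (M + K + 1)
    refine ⟨Nat.pair m (M + K + 1) - 1, by omega, ?_, hM _ (by omega)⟩
    have h4 : Nat.pair m (M + K + 1) - 1 + 1 = Nat.pair m (M + K + 1) := by omega
    rw [h4, Nat.unpair_pair]
  have hsum : ∀ (X : Type) (C : ℕ → Set X) (v : ℕ → ℕ) (x : X),
      (fun k => (∑ j ∈ Finset.range (v k), (C j).indicator (1 : X → ℝ) x) / (v k : ℝ)) =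
      (fun k => ∑' j, ces v k j * (C j).indicator (1 : X → ℝ) x) := by
    intro X C v x
    funext k
    exact (ces_tsum v k (fun j => (C j).indicator (1 : X → ℝ) x)).symm
  refine ⟨⟨fn el, fn_continuous el_continuous, fun n x => rat_mem _, ?_⟩,
    ⟨st el, st_clopen el_continuous, ?_⟩, ?_⟩
  · intro a ha u hu
    obtain ⟨g, hg⟩ := core_freq el phi1 (fun i _ => rat_mem i) rat a ha.summable ha.column u hu
      (fun i => H1 ha u i)
    exact ⟨_, (hexc g).1, (hexc g).2, fun x hx t ht =>
      hg x (el_strictMono x) t (hoff g x hx t ht)⟩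
  · have hC : ∀ a : ℕ → ℕ → ℝ, StronglyRegular a →
        ∃ N : Set InfSub, RamseyNull N ∧ IsMeagre N ∧ ∀ x, x ∉ N → ∀ t ∈ Set.Icc (0 : ℝ) 1,
          MapClusterPt t atTop (fun k => ∑' j, a k j * (st el j).indicator 1 x) := by
      intro a ha
      obtain ⟨g, hg⟩ := core_freq el phi2 phi2_mem rat a ha.summable ha.column id tendsto_id
        (fun i => H2 ha i)
      refine ⟨_, (hexc g).1, (hexc g).2, fun x hx t ht => ?_⟩
      have h1 := hg x (el_strictMono x) t (hoff g x hx t ht)
      have h2 : (fun k => ∑' j, a k j * (st el j).indicator (1 : InfSub → ℝ) x) =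
          (fun k => ∑' j, a k j * phi2 (cnt el (id j) x) (id j)) := by
        funext k
        refine tsum_congr (fun j => ?_)
        rw [st_indicator]
        rfl
      rw [h2]
      exact h1
    refine ⟨hC, fun v hv => ?_⟩
    obtain ⟨N, h1, h2, h3⟩ := hC (ces v) (ces_stronglyRegular v hv)
    have h4 : ∀ x, x ∉ N → ∀ t ∈ Set.Icc (0 : ℝ) 1, MapClusterPt t atTop
        (fun k => (∑ j ∈ Finset.range (v k), (st el j).indicator (1 : InfSub → ℝ) x) /
          (v k : ℝ)) := by
      intro x hx t ht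
      rw [hsum]
      exact h3 x hx t ht
    refine ⟨⟨N, h1, h2, h4⟩, ?_⟩
    apply not_all_off
    refine RamseyNull.mono (fun x hx => ?_) h1
    by_contra hxN
    exact osc_not_tendsto (h4 x hxN) hx
  · intro X _ I hI d hd hdom
    have hexI : ∀ g : ℕ → ℕ, {x | ¬ ∀ᶠ i in atTop, g (iter d i x) < iter d (i + 1) x} ∈ I := by
      intro g
      refine hI _ _ (fun x hx => ?_) (hdom g)
      exact fun h => hx (iter_fast d g x h)
    have hC : ∀ a : ℕ → ℕ → ℝ, StronglyRegular a →
          ∃ N ∈ I, ∀ x, x ∉ N → ∀ t ∈ Set.Icc (0 : ℝ) 1,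
            MapClusterPt t atTop (fun k => ∑' j, a k j * (st (iter d) j).indicator 1 x) := by
      intro a ha
      obtain ⟨g, hg⟩ := st_osc (iter d) ha
      exact ⟨_, hexI g, fun x hx t ht => hg x (iter_strictMono d x) (not_not.1 hx) t ht⟩
    refine ⟨⟨fn (iter d), fn_measurable (iter_measurable d hd), fun n x => rat_mem _, ?_⟩,
      st (iter d), st_measurable (iter_measurable d hd), hC, ?_⟩
    · intro a ha u hu
      obtain ⟨g, hg⟩ := fn_osc (iter d) ha hu
      exact ⟨_, hexI g, fun x hx t ht => hg x (iter_strictMono d x) (not_not.1 hx) t ht⟩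
    · intro v hv
      obtain ⟨N, h1, h2⟩ := hC (ces v) (ces_stronglyRegular v hv)
      refine ⟨N, h1, fun x hx t ht => ?_⟩
      rw [hsum]
      exact h2 x hx t ht

end Pool.Agent.Results.MP_d594f7_lc.RegularMethods
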